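import Mathlib
import Pool.Agent.Helper25.PCap.Assembly
import Pool.Agent.Helper25.PCapB.Perim

/-!
MP_576c25_an: among all bounded convex planar sets of perimeter `L` the minimum of the `p`-capacity, `1 < p < 2`,
is attained by the segment of length `L / 2`.

This is the affirmative answer to Q1 in the words of the problem file: the perimeter is the length of the boundary
(its one dimensional Hausdorff measure) for a convex set with interior points, and twice the length for a convex
set without interior points.
-/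

set_option autoImplicit false

namespace Pool.Agent.Results.MP_576c25_an.MinimumAtSegment

open MeasureTheory Set
open scoped ENNReal

/-- the Euclidean plane -/
abbrev Plane := EuclideanSpace ℝ (Fin 2)

/-- `u` is continuously differentiable with compact support and `u ≥ 1` on a neighbourhood of `Ω` -/
def Admissible (Ω : Set Plane) (u : Plane → ℝ) : Prop :=
  ContDiff ℝ 1 u ∧ HasCompactSupport u ∧ ∃ U : Set Plane, IsOpen U ∧ Ω ⊆ U ∧ ∀ x ∈ U, 1 ≤ u x

/-- the `p`-capacity of `Ω`: the infimum of the integrals of `|∇u|^p` over the admissible functions -/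
noncomputable def cap (p : ℝ) (Ω : Set Plane) : ℝ :=
  sInf {c : ℝ | ∃ u : Plane → ℝ, Admissible Ω u ∧ c = ∫ x, ‖gradient u x‖ ^ p}

open Classical in
/-- the perimeter of a convex set: the length of its boundary if it has interior points, and twice its length
otherwise (length is the one dimensional Hausdorff measure) -/
noncomputable def perimeter (Ω : Set Plane) : ℝ≥0∞ :=
  if (interior Ω).Nonempty then Measure.hausdorffMeasure 1 (frontier Ω)
  else 2 * Measure.hausdorffMeasure 1 Ω

theorem norm_grad (u : Plane → ℝ) (x : Plane) : ‖gradient u x‖ = ‖fderiv ℝ u x‖ := by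
  rw [gradient, LinearIsometryEquiv.norm_map]

theorem cap_eq (p : ℝ) (Ω : Set Plane) :
    cap p Ω = sInf {c : ℝ | ∃ u : EuclideanSpace ℝ (Fin 2) → ℝ,
              ContDiff ℝ 1 u ∧ HasCompactSupport u ∧
              (∃ U : Set (EuclideanSpace ℝ (Fin 2)), IsOpen U ∧ Ω ⊆ U ∧
                ∀ x ∈ U, 1 ≤ u x) ∧
              c = MeasureTheory.integral MeasureTheory.volume
                    (fun x : EuclideanSpace ℝ (Fin 2) => ‖fderiv ℝ u x‖ ^ p)} := by
  rw [cap]
  congr 1
  ext c
  constructor
  · rintro ⟨u, ⟨h1, h2, h3⟩, rfl⟩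
    exact ⟨u, h1, h2, h3, by simp only [norm_grad]⟩
  · rintro ⟨u, h1, h2, h3, rfl⟩
    exact ⟨u, ⟨h1, h2, h3⟩, by simp only [norm_grad]⟩

theorem exists_admissible {Ω : Set Plane} (hb : Bornology.IsBounded Ω) :
    ∃ u : Plane → ℝ, Admissible Ω u := by
  obtain ⟨R, hR⟩ := hb.exists_norm_le
  have hR1 : (0 : ℝ) < |R| + 1 := by positivity
  let f : ContDiffBump (0 : Plane) := ⟨|R| + 1, |R| + 2, hR1, by linarith⟩
  refine ⟨f, f.contDiff, f.hasCompactSupport, Metric.ball 0 (|R| + 1), Metric.isOpen_ball, ?_, ?_⟩
  · intro x hx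
    rw [mem_ball_zero_iff]
    have := hR x hx
    have := le_abs_self R
    linarith
  · intro x hx
    exact (f.one_of_mem_closedBall (Metric.ball_subset_closedBall hx)).ge

theorem cap_mono (p : ℝ) {A B : Set Plane} (hB : Bornology.IsBounded B) (hAB : A ⊆ B) :
    cap p A ≤ cap p B := by
  obtain ⟨u, hu⟩ := exists_admissible hB
  refine csInf_le_csInf ⟨0, ?_⟩ ⟨_, u, hu, rfl⟩ ?_
  · rintro c ⟨w, -, rfl⟩
    exact integral_nonneg fun x => by positivity
  · rintro c ⟨w, ⟨h1, h2, U, hU, hBU, h3⟩, rfl⟩
    exact ⟨w, ⟨h1, h2, U, hU, hAB.trans hBU, h3⟩, rfl⟩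

theorem interior_segment_eq (a b : Plane) : ¬ (interior (segment ℝ a b)).Nonempty := by
  have h1 : (Measure.hausdorffMeasure 1 : Measure Plane) (segment ℝ a b) ≠ ⊤ := by
    rw [hausdorffMeasure_segment]
    exact edist_ne_top _ _
  have h2 : (Measure.hausdorffMeasure (Module.finrank ℝ Plane : ℝ) : Measure Plane)
      (segment ℝ a b) = 0 := by
    refine (Measure.hausdorffMeasure_zero_or_top ?_ _).resolve_right h1
    simp
  have h3 := Measure.interior_eq_empty_of_null
    (μ := (Measure.hausdorffMeasure (Module.finrank ℝ Plane : ℝ) : Measure Plane)) h2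
  rw [h3]
  exact not_nonempty_empty

theorem perimeter_segment (a b : Plane) {L : ℝ} (hab : dist a b = L / 2) :
    perimeter (segment ℝ a b) = ENNReal.ofReal L := by
  rw [perimeter, if_neg (interior_segment_eq a b), hausdorffMeasure_segment, edist_dist, hab,
    show (2 : ℝ≥0∞) = ENNReal.ofReal 2 by simp, ← ENNReal.ofReal_mul (by norm_num)]
  congr 1
  ring

theorem perimeter_le {Ω : Set Plane} (hne : Ω.Nonempty) (hb : Bornology.IsBounded Ω)
    (hc : Convex ℝ Ω) :
    perimeter Ω ≤ ENNReal.ofReal (∫ θ in (0 : ℝ)..(2 * Real.pi),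
      Helper25.PCapB.hs Ω θ) := by
  rw [perimeter]
  split_ifs with h
  · exact Helper25.PCapB.frontier_le hne hb hc h
  · exact Helper25.PCapB.flat_le hne hb hc h

/-- Let `1 < p < 2` and `L > 0`, and let `a`, `b` be points at distance `L / 2`. The segment from `a` to `b` has
the perimeter `L`, and its `p`-capacity is at most the `p`-capacity of each nonempty bounded convex set of
perimeter `L` in the plane. -/
theorem result (p : ℝ) (hp1 : 1 < p) (hp2 : p < 2) (L : ℝ) (hL : 0 < L) (a b : Plane)
    (hab : dist a b = L / 2) :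
    perimeter (segment ℝ a b) = ENNReal.ofReal L ∧
      ∀ Ω : Set Plane, Ω.Nonempty → Bornology.IsBounded Ω → Convex ℝ Ω →
        perimeter Ω = ENNReal.ofReal L → cap p (segment ℝ a b) ≤ cap p Ω := by
  have hseg : ∀ c d : Plane, Bornology.IsBounded (segment ℝ c d) := fun c d => by
    rw [← convexHull_pair, isBounded_convexHull]
    exact (Set.toFinite _).isBounded
  refine ⟨perimeter_segment a b hab, fun Ω hne hb hc hper => ?_⟩
  set I : ℝ := ∫ θ in (0 : ℝ)..(2 * Real.pi), Helper25.PCapB.hs Ω θ with hI
  have h1 := perimeter_le hne hb hc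
  rw [hper, ← hI] at h1
  have hLI : L ≤ I := by
    rcases ENNReal.ofReal_le_ofReal_iff'.1 h1 with h2 | h2
    · exact h2
    · exact absurd h2 (not_le.2 hL)
  have hI0 : 0 < I := hL.trans_le hLI
  set b' : Plane := a + (I / L) • (b - a) with hb'
  have hdist : 2 * dist a b' = I := by
    rw [dist_comm, hb', dist_eq_norm, add_sub_cancel_left, norm_smul, ← dist_eq_norm, dist_comm,
      hab, Real.norm_of_nonneg (by positivity)]
    field_simp
  have key := Helper25.PCap.frozen_of_final Helper25.PCap.Assembly.final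
    p hp1 hp2 Ω hne hb hc a b' hdist
  rw [← cap_eq p Ω, ← cap_eq p (segment ℝ a b')] at key
  refine (cap_mono p (hseg a b') ?_).trans key
  apply (convex_segment a b').segment_subset (left_mem_segment ℝ a b')
  refine ⟨1 - L / I, L / I, ?_, by positivity, by ring, ?_⟩
  · rw [sub_nonneg, div_le_one hI0]
    exact hLI
  · rw [hb', smul_add, smul_smul, div_mul_div_comm, mul_comm L I, div_self (by positivity),
      one_smul, sub_smul, one_smul]
    abel

end Pool.Agent.Results.MP_576c25_an.MinimumAtSegment
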